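import Pool.Agent.W122.DS.Stm3

set_option autoImplicit false

namespace Pool.Agent.W469.DS.BC

open MeasureTheory ProbabilityTheory Filter
open Pool.Agent.W122.DS
open scoped ENNReal

theorem card_boxR {d : ℕ} (z : Lat d) (R : ℕ) : (boxR z R).card = (2 * R + 1) ^ d := by
  unfold boxR
  rw [Fintype.card_piFinset]
  simp only [Int.card_Icc]
  rw [Finset.prod_congr rfl (g := fun _ => 2 * R + 1) (fun i _ => by omega), Finset.prod_const,
    Finset.card_univ, Fintype.card_fin]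

theorem root_le {d : ℕ} (hd : 1 ≤ d) (n : ℕ) (hn : 1 ≤ n) :
    0 ≤ (Real.log n) ^ (1 / (d : ℝ)) ∧ (Real.log n) ^ (1 / (d : ℝ)) ≤ n := by
  have hn' : (1 : ℝ) ≤ n := by exact_mod_cast hn
  have hd' : (1 : ℝ) ≤ d := by exact_mod_cast hd
  have hl : 0 ≤ Real.log n := Real.log_nonneg hn'
  refine ⟨Real.rpow_nonneg hl _, ?_⟩
  have h1 : Real.log n ≤ n := (Real.log_le_sub_one_of_pos (by linarith)).trans (by linarith)
  rcases le_total 1 (Real.log n) with h | h
  · refine (Real.rpow_le_self_of_one_le h ?_).trans h1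
    rw [div_le_one (by linarith)]
    exact hd'
  · exact (Real.rpow_le_one hl h (by positivity)).trans hn'

theorem rad_le {d : ℕ} (hd : 1 ≤ d) {c : ℝ} (hc : 0 < c) (hc8 : c ≤ 1 / 8) (n : ℕ) :
    8 * rad d c n ≤ n := by
  rcases Nat.eq_zero_or_pos n with rfl | hn
  · unfold rad
    have hd' : (1 : ℝ) ≤ d := by exact_mod_cast hd
    have h0 : (0 : ℝ) ^ (1 / (d : ℝ)) = 0 := Real.zero_rpow (by positivity)
    have h1 : c * (Real.log ((0 : ℕ) : ℝ)) ^ (1 / (d : ℝ)) = 0 := by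
      rw [Nat.cast_zero, Real.log_zero, h0, mul_zero]
    rw [h1]
    simp
  · obtain ⟨h1, h2⟩ := root_le hd n hn
    have h3 : ((rad d c n : ℕ) : ℝ) ≤ c * (Real.log n) ^ (1 / (d : ℝ)) :=
      Nat.floor_le (by positivity)
    have h4 : c * (Real.log n) ^ (1 / (d : ℝ)) ≤ 1 / 8 * n := by gcongr
    have h5 : 8 * ((rad d c n : ℕ) : ℝ) ≤ n := by linarith
    exact_mod_cast h5

theorem boxes_disjoint {d : ℕ} (hd : 1 ≤ d) {c : ℝ} (hc : 0 < c) (hc8 : c ≤ 1 / 8) {n m : ℕ}
    (hnm : n ≠ m) : Disjoint (boxR (ctr d n) (rad d c n)) (boxR (ctr d m) (rad d c m)) := by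
  wlog h : m < n with H
  · exact (H hd hc hc8 hnm.symm (by omega)).symm
  rw [Finset.disjoint_left]
  intro x hx hy
  unfold boxR at hx hy
  rw [Fintype.mem_piFinset] at hx hy
  have h1 := hx ⟨0, by omega⟩
  have h2 := hy ⟨0, by omega⟩
  rw [Finset.mem_Icc] at h1 h2
  simp only [ctr, if_true] at h1 h2
  have h3 : (8 * rad d c n : ℤ) ≤ n := by exact_mod_cast rad_le hd hc hc8 n
  have h4 : (8 * rad d c m : ℤ) ≤ m := by exact_mod_cast rad_le hd hc hc8 m
  have h5 : (n : ℤ) + m ≤ (n : ℤ) ^ 2 - (m : ℤ) ^ 2 := by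
    have h6 : (1 : ℤ) ≤ n - m := by
      have : (m : ℤ) < n := by exact_mod_cast h
      omega
    have h7 : (0 : ℤ) ≤ n + m := by positivity
    nlinarith
  have h8 : (0 : ℤ) < n := by
    have : (m : ℤ) < n := by exact_mod_cast h
    omega
  omega

/-- the number of sites of the bad boxes -/
theorem card_le {d : ℕ} (hd : 1 ≤ d) {c : ℝ} (hc : 0 < c) (hc8 : c ≤ 1 / 8) (n : ℕ) (hn : 1 ≤ n) :
    (((boxR (ctr d n) (rad d c n)).card : ℕ) : ℝ) ≤ 2 ^ d + 4 * c * Real.log n := by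
  obtain ⟨h1, h2⟩ := root_le hd n hn
  have hn' : (1 : ℝ) ≤ n := by exact_mod_cast hn
  have hd' : (1 : ℝ) ≤ d := by exact_mod_cast hd
  have hl : 0 ≤ Real.log n := Real.log_nonneg hn'
  have h3 : ((rad d c n : ℕ) : ℝ) ≤ c * (Real.log n) ^ (1 / (d : ℝ)) :=
    Nat.floor_le (by positivity)
  rw [card_boxR]
  push_cast
  have h4 : (2 * ((rad d c n : ℕ) : ℝ) + 1) ^ d ≤ (2 * (c * (Real.log n) ^ (1 / (d : ℝ))) + 1) ^ d := by
    gcongr
  have h5 := add_pow_le (a := 2 * (c * (Real.log n) ^ (1 / (d : ℝ)))) (b := (1 : ℝ))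
    (by positivity) zero_le_one d
  have h6 : (2 * (c * (Real.log n) ^ (1 / (d : ℝ)))) ^ d = (2 * c) ^ d * Real.log n := by
    rw [← mul_assoc, mul_pow, ← Real.rpow_natCast ((Real.log n) ^ (1 / (d : ℝ))) d,
      ← Real.rpow_mul hl, one_div, inv_mul_cancel₀ (by linarith), Real.rpow_one]
  rw [h6, one_pow] at h5
  have h7 : (2 : ℝ) ^ (d - 1) ≤ 2 ^ d := pow_le_pow_right₀ (by norm_num) (by omega)
  have h8 : (2 : ℝ) ^ d * (2 * c) ^ d ≤ 4 * c := by
    rw [← mul_pow]
    have : 2 * (2 * c) = 4 * c := by ring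
    rw [this]
    exact pow_le_of_le_one (by positivity) (by linarith) (by omega)
  calc (2 * ((rad d c n : ℕ) : ℝ) + 1) ^ d ≤ 2 ^ (d - 1) * ((2 * c) ^ d * Real.log n + 1) :=
        h4.trans h5
    _ ≤ 2 ^ d * ((2 * c) ^ d * Real.log n + 1) := by gcongr
    _ = 2 ^ d + (2 ^ d * (2 * c) ^ d) * Real.log n := by ring
    _ ≤ 2 ^ d + 4 * c * Real.log n := by gcongr

theorem stmBC : StmBC := by
  intro d c₀ p₀ hd hp₀
  obtain ⟨p, hp⟩ : ∃ p : ℝ, p = min p₀ 1 := ⟨_, rfl⟩
  have hp0 : 0 < p := by rw [hp]; exact lt_min hp₀ one_pos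
  have hp1 : p ≤ 1 := by rw [hp]; exact min_le_right _ _
  have hpp : p ≤ p₀ := by rw [hp]; exact min_le_left _ _
  obtain ⟨lam, hlam⟩ : ∃ lam : ℝ, lam = -Real.log p := ⟨_, rfl⟩
  have hlam0 : 0 ≤ lam := by
    rw [hlam]
    have := Real.log_nonpos hp0.le hp1
    linarith
  obtain ⟨c, hcd⟩ : ∃ c : ℝ, c = min (1 / 8) (1 / (4 * (lam + 1))) := ⟨_, rfl⟩
  have hc : 0 < c := by rw [hcd]; exact lt_min (by norm_num) (by positivity)
  have hc8 : c ≤ 1 / 8 := by rw [hcd]; exact min_le_left _ _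
  have hc1 : 4 * c * lam ≤ 1 := by
    have h1 : c ≤ 1 / (4 * (lam + 1)) := by rw [hcd]; exact min_le_right _ _
    rw [le_div_iff₀ (by positivity)] at h1
    nlinarith
  refine ⟨c, hc, ?_⟩
  intro Ω _ P _ ξ hξ hind hlow
  obtain ⟨A, hA⟩ : ∃ A : Lat d → Set Ω, ∀ x, A x = ξ x ⁻¹' Set.Iic (-c₀) := ⟨_, fun x => rfl⟩
  have hAm : ∀ x, MeasurableSet (A x) := fun x => by
    rw [hA]
    exact hξ x measurableSet_Iic
  have hAp : ∀ x, p ≤ P.real (A x) := by
    intro x
    refine hpp.trans ((hlow x).trans (le_of_eq ?_))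
    rw [hA]
    rfl
  have hinter : ∀ S : Finset (Lat d), P (⋂ x ∈ S, A x) = ∏ x ∈ S, P (A x) := by
    intro S
    have := hind.measure_inter_preimage_eq_mul S (sets := fun _ => Set.Iic (-c₀))
      (fun _ _ => measurableSet_Iic)
    simp only [hA]
    exact this
  obtain ⟨B, hB⟩ : ∃ B : ℕ → Finset (Lat d), ∀ n, B n = boxR (ctr d n) (rad d c n) :=
    ⟨_, fun n => rfl⟩
  obtain ⟨E, hE⟩ : ∃ E : ℕ → Set Ω, ∀ n, E n = ⋂ x ∈ B n, A x := ⟨_, fun n => rfl⟩
  have hEm : ∀ n, MeasurableSet (E n) := fun n => by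
    rw [hE]
    exact Finset.measurableSet_biInter _ fun x _ => hAm x
  have hdis : ∀ n m, n ≠ m → Disjoint (B n) (B m) := by
    intro n m h
    rw [hB, hB]
    exact boxes_disjoint hd hc hc8 h
  have hEind : iIndepSet E P := by
    rw [iIndepSet_iff_meas_biInter hEm]
    intro T
    classical
    have h1 : ⋂ n ∈ T, E n = ⋂ x ∈ T.biUnion B, A x := by
      ext ω
      simp only [hE, Set.mem_iInter, Finset.mem_biUnion]
      constructor
      · rintro h x ⟨n, hn, hx⟩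
        exact h n hn x hx
      · intro h n hn x hx
        exact h x ⟨n, hn, hx⟩
    rw [h1, hinter, Finset.prod_biUnion (fun n _ m _ h => hdis n m h)]
    refine Finset.prod_congr rfl fun n _ => ?_
    rw [hE, hinter]
  have hprob : ∀ n : ℕ, 1 ≤ n → Real.exp (-(lam * 2 ^ d)) * (1 / n) ≤ (P (E n)).toReal := by
    intro n hn
    have hn0 : (0 : ℝ) < n := by exact_mod_cast hn
    have hn' : (1 : ℝ) ≤ n := by exact_mod_cast hn
    have hl : 0 ≤ Real.log n := Real.log_nonneg hn'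
    have h1 : (P (E n)).toReal = ∏ x ∈ B n, P.real (A x) := by
      rw [hE, hinter, ENNReal.toReal_prod]
      rfl
    have h2 : p ^ (B n).card ≤ (P (E n)).toReal := by
      rw [h1, ← Finset.prod_const]
      exact Finset.prod_le_prod (fun _ _ => hp0.le) fun x _ => hAp x
    refine le_trans ?_ h2
    have h3 : p ^ (B n).card = Real.exp (-(lam * (B n).card)) := by
      rw [hlam, ← Real.exp_log hp0, ← Real.exp_nat_mul, Real.exp_log hp0]
      congr 1
      ring
    have h4 : (1 : ℝ) / n = Real.exp (-Real.log n) := by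
      rw [Real.exp_neg, Real.exp_log hn0, one_div]
    rw [h3, h4, ← Real.exp_add, Real.exp_le_exp]
    have h5 := card_le hd hc hc8 n hn
    rw [← hB] at h5
    have h6 : lam * (B n).card ≤ lam * (2 ^ d + 4 * c * Real.log n) := by gcongr
    have h7 : (4 * c * lam) * Real.log n ≤ 1 * Real.log n := by gcongr
    linarith
  have hsum : ∑' n, P (E n) = ∞ := by
    by_contra hcon
    have h1 := ENNReal.summable_toReal hcon
    apply Real.not_summable_one_div_natCast
    have h2 : Summable fun n : ℕ => Real.exp (-(lam * 2 ^ d)) * (1 / (n : ℝ)) := by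
      refine Summable.of_nonneg_of_le (fun n => by positivity) (fun n => ?_) h1
      rcases Nat.eq_zero_or_pos n with rfl | hn
      · simp
      · exact hprob n hn
    exact (summable_mul_left_iff (Real.exp_pos _).ne').1 h2
  have hlim := measure_limsup_eq_one hEm hEind hsum
  have hae : ∀ᵐ ω ∂P, ω ∈ limsup E atTop :=
    (mem_ae_iff_prob_eq_one (MeasurableSet.measurableSet_limsup hEm)).2 hlim
  filter_upwards [hae] with ω hω N
  rw [mem_limsup_iff_frequently_mem] at hω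
  obtain ⟨n, hn, hmem⟩ := (frequently_atTop.1 hω) N
  refine ⟨n, hn, fun x hx => ?_⟩
  rw [hE, Set.mem_iInter₂] at hmem
  have := hmem x (by rw [hB]; exact hx)
  rw [hA] at this
  exact this

end Pool.Agent.W469.DS.BC
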