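import Pool.Agent.W469.DS.BC

/-!
# Sharpness of the decay exponent
-/

set_option autoImplicit false

namespace Pool.Agent.W469.DS.Neg

open MeasureTheory ProbabilityTheory Filter Topology Pool.Agent.W122.DS

theorem ev_rpow (a A : ℝ) (ha : 0 < a) : ∀ᶠ n : ℕ in atTop, A < (Real.log n) ^ a := by
  have h := ((tendsto_rpow_atTop ha).comp
    (Real.tendsto_log_atTop.comp tendsto_natCast_atTop_atTop)).eventually_gt_atTop A
  exact h

theorem box_est {d : ℕ} (hd : 1 ≤ d) {n r : ℕ} (hr : 2 * (r : ℝ) ≤ (n : ℝ) ^ 2)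
    (hn : Real.exp 1 + 2 * d + 3 ≤ (n : ℝ)) {x : Lat d} (hx : x ∈ boxR (ctr d n) r) :
    (n : ℝ) ^ 4 / 4 ≤ nsq x ∧ Real.log n ≤ Real.log (Real.exp 1 + √(nsq x)) ∧
      Real.log (Real.exp 1 + √(nsq x)) ≤ 3 * Real.log n := by
  have hd' : (1 : ℝ) ≤ d := by exact_mod_cast hd
  have he : 0 < Real.exp 1 := Real.exp_pos 1
  have hn3 : (3 : ℝ) ≤ n := by linarith
  have hr0 : (0 : ℝ) ≤ r := Nat.cast_nonneg r
  unfold boxR at hx
  rw [Fintype.mem_piFinset] at hx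
  have hxi : ∀ i, |(x i : ℝ)| ≤ 2 * (n : ℝ) ^ 2 := by
    intro i
    have h1 := hx i
    rw [Finset.mem_Icc] at h1
    obtain ⟨h1, h2⟩ := h1
    have h1' : ((ctr d n i - r : ℤ) : ℝ) ≤ (x i : ℝ) := by exact_mod_cast h1
    have h2' : (x i : ℝ) ≤ ((ctr d n i + r : ℤ) : ℝ) := by exact_mod_cast h2
    push_cast at h1' h2'
    have h3 : (0 : ℝ) ≤ (ctr d n i : ℝ) ∧ (ctr d n i : ℝ) ≤ (n : ℝ) ^ 2 := by
      unfold ctr
      split
      · push_cast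
        exact ⟨by positivity, le_refl _⟩
      · push_cast
        exact ⟨le_refl _, by positivity⟩
    obtain ⟨h3, h4⟩ := h3
    rw [abs_le]
    constructor
    · nlinarith
    · nlinarith
  have hx0 : (n : ℝ) ^ 2 / 2 ≤ (x ⟨0, by omega⟩ : ℝ) := by
    have h1 := hx ⟨0, by omega⟩
    rw [Finset.mem_Icc] at h1
    obtain ⟨h1, h2⟩ := h1
    have h1' : ((ctr d n ⟨0, by omega⟩ - r : ℤ) : ℝ) ≤ (x ⟨0, by omega⟩ : ℝ) := by
      exact_mod_cast h1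
    push_cast at h1'
    have h3 : (ctr d n ⟨0, by omega⟩ : ℝ) = (n : ℝ) ^ 2 := by
      simp [ctr]
    rw [h3] at h1'
    linarith
  have hlow : (n : ℝ) ^ 4 / 4 ≤ nsq x := by
    have h1 : ((x ⟨0, by omega⟩ : ℤ) : ℝ) ^ 2 ≤ nsq x := by
      unfold nsq
      exact Finset.single_le_sum (f := fun i => ((x i : ℤ) : ℝ) ^ 2) (fun i _ => sq_nonneg _)
        (Finset.mem_univ (⟨0, by omega⟩ : Fin d))
    have h2 : ((n : ℝ) ^ 2 / 2) ^ 2 ≤ ((x ⟨0, by omega⟩ : ℤ) : ℝ) ^ 2 := by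
      gcongr
    calc (n : ℝ) ^ 4 / 4 = ((n : ℝ) ^ 2 / 2) ^ 2 := by ring
      _ ≤ _ := h2.trans h1
  have hup : nsq x ≤ (2 * d * (n : ℝ) ^ 2) ^ 2 := by
    have h1 : nsq x ≤ ∑ _i : Fin d, (2 * (n : ℝ) ^ 2) ^ 2 := by
      unfold nsq
      refine Finset.sum_le_sum fun i _ => ?_
      exact sq_le_sq.2 ((hxi i).trans (le_abs_self _))
    rw [Finset.sum_const, Finset.card_univ, Fintype.card_fin, nsmul_eq_mul] at h1
    have h2 : (d : ℝ) * (2 * (n : ℝ) ^ 2) ^ 2 ≤ (2 * d * (n : ℝ) ^ 2) ^ 2 := by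
      have h3 : (0 : ℝ) ≤ (2 * (n : ℝ) ^ 2) ^ 2 := by positivity
      have h4 : (d : ℝ) ≤ (d : ℝ) ^ 2 := by nlinarith
      calc (d : ℝ) * (2 * (n : ℝ) ^ 2) ^ 2 ≤ (d : ℝ) ^ 2 * (2 * (n : ℝ) ^ 2) ^ 2 := by gcongr
        _ = _ := by ring
    exact h1.trans h2
  have hs1 : (n : ℝ) ^ 2 / 2 ≤ √(nsq x) := by
    refine Real.le_sqrt_of_sq_le ?_
    calc ((n : ℝ) ^ 2 / 2) ^ 2 = (n : ℝ) ^ 4 / 4 := by ring
      _ ≤ _ := hlow
  have hs2 : √(nsq x) ≤ 2 * d * (n : ℝ) ^ 2 := by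
    rw [Real.sqrt_le_left (by positivity)]
    exact hup
  refine ⟨hlow, ?_, ?_⟩
  · refine Real.log_le_log (by linarith) ?_
    nlinarith
  · have h1 : (3 : ℝ) * Real.log n = Real.log ((n : ℝ) ^ 3) := by
      rw [Real.log_pow]
      norm_num
    rw [h1]
    refine Real.log_le_log (by positivity) ?_
    have h2 : (Real.exp 1 + 2 * d) * (n : ℝ) ^ 2 ≤ n * (n : ℝ) ^ 2 := by
      gcongr
      linarith
    have h3 : Real.exp 1 ≤ Real.exp 1 * (n : ℝ) ^ 2 := by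
      have h4 : (1 : ℝ) ≤ (n : ℝ) ^ 2 := by nlinarith
      nlinarith
    calc Real.exp 1 + √(nsq x) ≤ Real.exp 1 * (n : ℝ) ^ 2 + 2 * d * (n : ℝ) ^ 2 := by linarith
      _ = (Real.exp 1 + 2 * d) * (n : ℝ) ^ 2 := by ring
      _ ≤ n * (n : ℝ) ^ 2 := h2
      _ = (n : ℝ) ^ 3 := by ring

/-- The potential is very negative at a bad site. -/
theorem pot_le {κ C c₀ ν L l ξ w : ℝ} (hκ : 0 < κ) (hν : 0 < ν) (hc₀ : 0 < c₀) (hl : 0 < l)
    (h1 : l ≤ L) (h2 : L ≤ 3 * l) (h3 : 2 * |C| * κ / c₀ < l ^ ν) (hξ : ξ ≤ -c₀)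
    (hw : |w| ≤ C * (κ / L ^ ν) ^ 2) :
    κ / L ^ ν * ξ + w ≤ -(c₀ / 2 * κ / (3 * l) ^ ν) := by
  have hL : 0 < L := by linarith
  have hLp : 0 < L ^ ν := Real.rpow_pos_of_pos hL ν
  have hlp : 0 < l ^ ν := Real.rpow_pos_of_pos hl ν
  have h3l : 0 < (3 * l) ^ ν := Real.rpow_pos_of_pos (by linarith) ν
  set a : ℝ := κ / L ^ ν with ha
  have ha0 : 0 < a := by positivity
  have ha1 : a ≤ κ / l ^ ν := by
    rw [ha]
    gcongr
  have ha2 : κ / (3 * l) ^ ν ≤ a := by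
    rw [ha]
    gcongr
  have h4 : |C| * a ≤ c₀ / 2 := by
    have h5 : |C| * a ≤ |C| * (κ / l ^ ν) := by gcongr
    have h6 : |C| * (κ / l ^ ν) ≤ c₀ / 2 := by
      rw [← mul_div_assoc, div_le_iff₀ hlp]
      rw [div_lt_iff₀ hc₀] at h3
      nlinarith
    exact h5.trans h6
  have h7 : w ≤ |C| * a * a := by
    have h8 : w ≤ |w| := le_abs_self w
    have h9 : C * a ^ 2 ≤ |C| * a ^ 2 := by
      gcongr
      exact le_abs_self C
    calc w ≤ C * a ^ 2 := h8.trans hw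
      _ ≤ |C| * a ^ 2 := h9
      _ = |C| * a * a := by ring
  have h10 : |C| * a * a ≤ c₀ / 2 * a := by gcongr
  have h11 : a * ξ ≤ a * (-c₀) := by gcongr
  have h12 : c₀ / 2 * κ / (3 * l) ^ ν ≤ c₀ / 2 * a := by
    rw [mul_div_assoc]
    gcongr
  linarith

theorem stmNeg (test : StmTest) (bc : StmBC) : StmNeg := by
  intro d ν κ C c₀ p₀ hd hν hν2 hκ hc₀ hp₀ W hW Ω _ P _ ξ hξm hξi hξp
  obtain ⟨CT, hCT1, hCT⟩ := test d hd
  obtain ⟨c, hc, hbc⟩ := bc d c₀ p₀ hd hp₀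
  filter_upwards [hbc Ω P ξ hξm hξi hξp] with ω hω
  intro R
  have hd' : (1 : ℝ) ≤ d := by exact_mod_cast hd
  have hd0 : (0 : ℝ) < d := by linarith
  have e1 : ∀ᶠ n : ℕ in atTop, 2 / c < (Real.log n) ^ (1 / (d : ℝ)) :=
    ev_rpow _ _ (by positivity)
  have e2 : ∀ᶠ n : ℕ in atTop, 2 * |C| * κ / c₀ < (Real.log n) ^ ν := ev_rpow _ _ hν
  have e3 : ∀ᶠ n : ℕ in atTop,
      8 * CT * 3 ^ ν / (c ^ 2 * c₀ * κ) < (Real.log n) ^ (2 / (d : ℝ) - ν) :=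
    ev_rpow _ _ (by linarith)
  have e4 : ∀ᶠ n : ℕ in atTop, 2 * c + |R| * 4 + Real.exp 1 + 2 * d + 3 ≤ (n : ℝ) :=
    tendsto_natCast_atTop_atTop.eventually_ge_atTop _
  obtain ⟨N, hN⟩ := eventually_atTop.1 (e1.and (e2.and (e3.and e4)))
  obtain ⟨n, hn, hx⟩ := hω N
  obtain ⟨f1, f2, f3, f4⟩ := hN n hn
  have he : 0 < Real.exp 1 := Real.exp_pos 1
  have hR0 : 0 ≤ |R| := abs_nonneg R
  have hn3 : (3 : ℝ) ≤ n := by linarith
  have hn1 : 1 ≤ n := by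
    have : (1 : ℝ) ≤ n := by linarith
    exact_mod_cast this
  set l : ℝ := Real.log n with hl
  have hl0 : 0 < l := Real.log_pos (by linarith)
  obtain ⟨g1, g2⟩ := Pool.Agent.W469.DS.BC.root_le hd n hn1
  rw [← hl] at g1 g2
  set r : ℕ := rad d c n with hr
  have hr1 : (r : ℝ) ≤ c * l ^ (1 / (d : ℝ)) := Nat.floor_le (by positivity)
  have hr2 : c * l ^ (1 / (d : ℝ)) < r + 1 := Nat.lt_floor_add_one _
  have hr3 : 2 < c * l ^ (1 / (d : ℝ)) := by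
    rw [div_lt_iff₀ hc] at f1
    linarith
  have hr4 : c * l ^ (1 / (d : ℝ)) / 2 ≤ r := by linarith
  have hr5 : 2 * (r : ℝ) ≤ (n : ℝ) ^ 2 := by
    have h1 : c * l ^ (1 / (d : ℝ)) ≤ c * n := by gcongr
    have h2 : 2 * c ≤ n := by linarith
    nlinarith
  have hr6 : 1 ≤ r := by
    have : (1 : ℝ) ≤ r := by linarith
    exact_mod_cast this
  have hr0 : (0 : ℝ) < r := by
    have : (1 : ℝ) ≤ r := by exact_mod_cast hr6
    linarith
  obtain ⟨u, hu0, hu1, hu2⟩ := hCT r (ctr d n) hr6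
  have hbox : ∀ x ∈ boxR (ctr d n) r, (n : ℝ) ^ 4 / 4 ≤ nsq x ∧
      Real.log n ≤ Real.log (Real.exp 1 + √(nsq x)) ∧
      Real.log (Real.exp 1 + √(nsq x)) ≤ 3 * Real.log n := fun x hxb =>
    box_est hd hr5 (by linarith) hxb
  refine ⟨boxR (ctr d n) r, u, hu0, ?_, ?_⟩
  · intro x hxb
    refine le_trans ?_ (hbox x hxb).1
    have h1 : R ≤ |R| := le_abs_self R
    have h2 : (n : ℝ) ≤ (n : ℝ) ^ 4 := le_self_pow₀ (by linarith) (by norm_num)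
    linarith
  · set q : ℝ := c₀ / 2 * κ / (3 * l) ^ ν with hq
    have h3l : 0 < (3 * l) ^ ν := Real.rpow_pos_of_pos (by linarith) ν
    have hq0 : 0 < q := by positivity
    have h1 : ∀ x ∈ boxR (ctr d n) r,
        u x * (negLap u x + (κ / Real.log (Real.exp 1 + √(nsq x)) ^ ν * ξ x ω + W x) * u x) ≤
          u x * negLap u x + -q * u x ^ 2 := by
      intro x hxb
      obtain ⟨_, h2, h3⟩ := hbox x hxb
      have h4 := pot_le hκ hν hc₀ hl0 h2 h3 f2 (hx x hxb) (hW x)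
      have h5 : (κ / Real.log (Real.exp 1 + √(nsq x)) ^ ν * ξ x ω + W x) * u x ^ 2 ≤
          -q * u x ^ 2 := by
        gcongr
      nlinarith
    have h2 : CT / (r : ℝ) ^ 2 < q := by
      have h3 : (c * l ^ (1 / (d : ℝ)) / 2) ^ 2 ≤ (r : ℝ) ^ 2 := by
        gcongr
      have h4 : (c * l ^ (1 / (d : ℝ)) / 2) ^ 2 = c ^ 2 / 4 * l ^ (2 / (d : ℝ)) := by
        have h5 : l ^ (2 / (d : ℝ)) = (l ^ (1 / (d : ℝ))) ^ 2 := by
          rw [← Real.rpow_natCast, ← Real.rpow_mul hl0.le]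
          congr 1
          push_cast
          ring
        rw [h5]
        ring
      rw [h4] at h3
      have h6 : l ^ (2 / (d : ℝ)) = l ^ (2 / (d : ℝ) - ν) * l ^ ν := by
        rw [← Real.rpow_add hl0]
        congr 1
        ring
      have h7 : (3 * l) ^ ν = 3 ^ ν * l ^ ν := Real.mul_rpow (by norm_num) hl0.le
      have h30 : (0 : ℝ) < 3 ^ ν := Real.rpow_pos_of_pos (by norm_num) ν
      have hlν : 0 < l ^ ν := Real.rpow_pos_of_pos hl0 ν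
      have h8 : 8 * CT * 3 ^ ν < l ^ (2 / (d : ℝ) - ν) * (c ^ 2 * c₀ * κ) := by
        rw [div_lt_iff₀ (by positivity)] at f3
        exact f3
      have h9 : 8 * CT * 3 ^ ν * l ^ ν < l ^ (2 / (d : ℝ)) * (c ^ 2 * c₀ * κ) := by
        rw [h6]
        calc 8 * CT * 3 ^ ν * l ^ ν < l ^ (2 / (d : ℝ) - ν) * (c ^ 2 * c₀ * κ) * l ^ ν := by
              gcongr
          _ = _ := by ring
      rw [div_lt_iff₀ (by positivity), hq, h7]
      rw [div_mul_eq_mul_div, lt_div_iff₀ (by positivity)]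
      have h10 : c₀ / 2 * κ * (c ^ 2 / 4 * l ^ (2 / (d : ℝ))) ≤ c₀ / 2 * κ * (r : ℝ) ^ 2 := by
        gcongr
      nlinarith
    calc ∑ x ∈ boxR (ctr d n) r,
          u x * (negLap u x + (κ / Real.log (Real.exp 1 + √(nsq x)) ^ ν * ξ x ω + W x) * u x)
        ≤ ∑ x ∈ boxR (ctr d n) r, (u x * negLap u x + -q * u x ^ 2) :=
          Finset.sum_le_sum h1
      _ = ∑ x ∈ boxR (ctr d n) r, u x * negLap u x +
            -q * ∑ x ∈ boxR (ctr d n) r, u x ^ 2 := by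
          rw [Finset.sum_add_distrib, Finset.mul_sum]
      _ ≤ CT / (r : ℝ) ^ 2 * ∑ x ∈ boxR (ctr d n) r, u x ^ 2 +
            -q * ∑ x ∈ boxR (ctr d n) r, u x ^ 2 := by
          gcongr
      _ = (CT / (r : ℝ) ^ 2 - q) * ∑ x ∈ boxR (ctr d n) r, u x ^ 2 := by ring
      _ < 0 := mul_neg_of_neg_of_pos (by linarith) hu1

end Pool.Agent.W469.DS.Neg
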